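import Mathlib
import Pool.Agent.Y733.LS.Fin

/-!
# Lang and Silverman's lower bound with an absolute constant, for almost all invariants `j`, over
# all number fields of all degrees

All constants below are absolute: they depend neither on the number field `K` nor on its degree
`n`, nor on the curve, its twist, the power `g` or the polarization.

`SPt a b` is the group of the rational points over `K` of the elliptic curve
`E : y² = x³ + a x + b`, `sht P` the height of the `x`-coordinate of `P` (relative to `K`), `chat P`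
the canonical height, the limit of `sht (2 ^ k P) / 4 ^ k`, and `chatM M P` the canonical height of
the point `P` of `E ^ g` for the polarization given by the symmetric positive definite matrix `M`.
The absolute heights are the quotients by `n`.

For all `j ∈ K` of height at most `B`, outside a set of at most `(C * B ^ (2 - η / 2 + ε)) ^ n`
invariants, the following holds for all elliptic curves `E` over `K` of invariant `j` (that is for
all twists), for all `g`, all polarizations `M` and all points `P ≠ 0` of `E ^ g` over `K`: the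
absolute canonical height of `P` is at least `(1 - 2 η) / 100` times `1`, plus the height of `j`,
plus the sum of `log N v / n` over the primes `v` of bad reduction of `E`. In particular, these
curves have no torsion points over `K`. The number of all `j ∈ K` of height at most `B` is at least
`(B ^ (2 - ε) / (C * δ_K ^ (2 + ε))) ^ n` for `B ≥ 16 * √δ_K`, so that the exceptional invariants
are a small proportion, exponentially small in the degree.

Proof: it is shown by descent on the local heights that the canonical height of `P` is at least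
`(1/12) s - (1/24) h + (1/4) r - C n`, where `h` is the height of `j`, `s` its part which
comes from the simple poles of `j` and `r` is the contribution of the ramified twist: at a simple
pole, the point `2 P` does not reduce to the singular point. The invariants with `s ≤ (1 - η) h`
are few, because an element of `K` is determined by its numerator and denominator and by a unit;
the counts of ideals and of units are uniform in all number fields.
-/

set_option autoImplicit false
set_option linter.unusedSectionVars false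

namespace Pool.Agent.Results.MP_9a3c31_nt.AllFieldsAllTwists

open NumberField IsDedekindDomain Pool.Agent.TH942 Pool.Agent.TH910.LS

section Defs

variable {K : Type} [Field K] [NumberField K]

/-- the `j`-invariant of `y² = x³ + a x + b` -/
noncomputable def jInv (a b : K) : K := 6912 * a ^ 3 / (4 * a ^ 3 + 27 * b ^ 2)

/-- The `v`-adic absolute value of the discriminant is not a twelfth power of an absolute value, or
`j` has a pole at `v`. All primes `v` of bad reduction of `y² = x³ + a x + b` which do not divide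
`6` have this property. -/
def Bad (a b : K) (v : HeightOneSpectrum (𝓞 K)) : Prop :=
  (∀ u : K, FinitePlace.mk v (4 * a ^ 3 + 27 * b ^ 2) ≠ FinitePlace.mk v u ^ 12) ∨
    1 < FinitePlace.mk v (jInv a b)

open Classical in
/-- The lower bound of Lang and Silverman with constant `c` for all powers, with all polarizations,
of all elliptic curves over `K` of invariant `j`. -/
def LangSilverman (c : ℝ) (j : K) : Prop :=
  ∀ a b : K, 4 * a ^ 3 + 27 * b ^ 2 ≠ 0 → jInv a b = j →
    ∀ S : Finset (HeightOneSpectrum (𝓞 K)), (∀ v ∈ S, Bad a b v) →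
    ∀ (g : ℕ) (M : Matrix (Fin g) (Fin g) ℤ), (M.map (Int.cast : ℤ → ℝ)).PosDef →
    ∀ P : Fin g → SPt a b, P ≠ 0 →
      c * (1 + Height.logHeight₁ j / Module.finrank ℚ K +
        (∑ v ∈ S, Real.log (Ideal.absNorm v.asIdeal)) / Module.finrank ℚ K) ≤
        chatM M P / Module.finrank ℚ K

variable (K)

/-- the root discriminant `δ_K` -/
noncomputable def rootDisc : ℝ :=
  |(NumberField.discr K : ℝ)| ^ (1 / (Module.finrank ℚ K : ℝ))

/-- the invariants of absolute height at most `B` -/
def Inv (B : ℝ) : Set K :=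
  {j | j ≠ 0 ∧ j ≠ 1728 ∧ Height.logHeight₁ j ≤ Module.finrank ℚ K * Real.log B}

/-- those for which the bound with constant `c` fails -/
def Exc (c B : ℝ) : Set K := {j ∈ Inv K B | ¬ LangSilverman c j}

end Defs

open Pool.Agent.Y733.UD Pool.Agent.Y733.LS Pool.Agent.W223.AK Pool.Agent.H691R3

section Aux

variable {K : Type} [Field K] [NumberField K]

theorem n_pos : (0 : ℝ) < Module.finrank ℚ K := by
  linarith [finrank_one_le K]

theorem rootDisc_eq : rootDisc K = Real.exp (rd K) := by
  unfold rootDisc rd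
  have h : (0 : ℝ) < |(NumberField.discr K : ℝ)| := by linarith [one_le_disc K]
  rw [Real.rpow_def_of_pos h]
  congr 1
  ring

theorem ht_log (j : K) : Height.logHeight₁ j = ht j := by
  rw [logHeight_eq, ht_eq_Sa]

theorem ls_iff (c : ℝ) (j : K) : LangSilverman c j ↔ LSP c j := by
  have hn := n_pos (K := K)
  unfold LangSilverman LSP
  have key : ∀ x y z : ℝ, c * (1 + x / Module.finrank ℚ K + y / Module.finrank ℚ K) ≤
      z / Module.finrank ℚ K ↔ c * (Module.finrank ℚ K + x + y) ≤ z := by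
    intro x y z
    have e : c * (1 + x / Module.finrank ℚ K + y / Module.finrank ℚ K) =
        c * (Module.finrank ℚ K + x + y) / Module.finrank ℚ K := by
      field_simp
    rw [e, div_le_div_iff_of_pos_right hn]
  constructor
  · intro h a b hD hj S hS g M hM P hP
    have h1 := h a b hD hj S hS g M hM P hP
    rw [key, ht_log] at h1
    exact h1
  · intro h a b hD hj S hS g M hM P hP
    rw [key, ht_log]
    exact h a b hD hj S hS g M hM P hP

theorem ncard_le {S : Set K} {b : ℝ} (h : ∀ E : Finset K, (E : Set K) ⊆ S → (E.card : ℝ) ≤ b) :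
    S.Finite ∧ (S.ncard : ℝ) ≤ b := by
  have hfin : S.Finite := by
    by_contra hinf
    obtain ⟨t, ht, hcard⟩ := Set.Infinite.exists_subset_card_eq hinf (⌊b⌋₊ + 1)
    have h1 := h t ht
    rw [hcard] at h1
    have h2 := Nat.lt_floor_add_one b
    push_cast at h1
    linarith
  refine ⟨hfin, ?_⟩
  have h1 := h hfin.toFinset (by simp)
  rwa [← Set.ncard_eq_toFinset_card S hfin] at h1

theorem le_ncard {S : Set K} (hS : S.Finite) {b : ℝ} {E : Finset K} (hE : (E : Set K) ⊆ S)
    (h : b ≤ E.card) : b ≤ (S.ncard : ℝ) := by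
  refine h.trans ?_
  rw [← Set.ncard_coe_finset]
  exact_mod_cast Set.ncard_le_ncard hE hS

theorem pow_form {n : ℕ} {C B Q α β : ℝ} (hC : 0 < C) (hB : 0 < B) (hQ : 0 < Q) :
    (C * B ^ α * Q ^ β) ^ n = Real.exp (n * (Real.log C + α * Real.log B + β * Real.log Q)) := by
  rw [Real.exp_nat_mul, Real.exp_add, Real.exp_add, Real.exp_log hC, Real.rpow_def_of_pos hB,
    Real.rpow_def_of_pos hQ, mul_comm α, mul_comm β]

theorem fin_Inv (B : ℝ) : (Inv K B).Finite := by
  refine (NumberField.finite_setOfPred_logHeight₁_le (K := K)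
    (Module.finrank ℚ K * Real.log B)).subset ?_
  intro j hj
  exact hj.2.2

theorem one_mem {B : ℝ} (hB : 1 ≤ B) : (1 : K) ∈ Inv K B := by
  refine ⟨one_ne_zero, by norm_num, ?_⟩
  rw [Height.logHeight₁_one]
  exact mul_nonneg n_pos.le (Real.log_nonneg hB)

theorem one_le_ncard {B : ℝ} (hB : 1 ≤ B) : (1 : ℝ) ≤ ((Inv K B).ncard : ℝ) := by
  have h := (Set.ncard_pos (fin_Inv (K := K) B)).2 ⟨1, one_mem hB⟩
  exact_mod_cast h

theorem sqrt_rootDisc : √(rootDisc K) = Real.exp (rd K / 2) := by
  rw [rootDisc_eq, Real.exp_half]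

theorem exc_le_inv (c B : ℝ) : ((Exc K c B).ncard : ℝ) ≤ ((Inv K B).ncard : ℝ) := by
  have h : Exc K c B ⊆ Inv K B := fun x hx => hx.1
  exact_mod_cast Set.ncard_le_ncard h (fin_Inv B)

end Aux

/-- logarithmic form of the count -/
theorem exc_log {η ε : ℝ} (hη0 : 0 < η) (hη : η < 1 / 2) (hε : 0 < ε) : ∃ A : ℝ, 0 ≤ A ∧
    ∀ (K : Type) [Field K] [NumberField K] (B : ℝ), 1 ≤ B →
      ((Exc K ((1 - 2 * η) / 100) B).ncard : ℝ) ≤ Real.exp (Module.finrank ℚ K *
        (A + (2 - η / 2 + ε) * Real.log B)) := by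
  obtain ⟨A, hA, h⟩ := exc_count hη0 hη hε
  refine ⟨A, hA, ?_⟩
  intro K _ _ B hB
  refine (ncard_le fun E hE => ?_).2
  refine (h K (Module.finrank ℚ K * Real.log B) E
    (mul_nonneg n_pos.le (Real.log_nonneg hB)) ?_).trans (le_of_eq (by congr 1; ring))
  intro j hj
  obtain ⟨⟨h1, h2, h3⟩, h4⟩ := hE (Finset.mem_coe.2 hj)
  rw [ht_log] at h3
  rw [ls_iff] at h4
  exact ⟨h1, h2, h3, h4⟩

/-- logarithmic form of the lower bound for the number of all invariants -/
theorem inv_log {ε : ℝ} (hε : 0 < ε) : ∃ A : ℝ, 0 ≤ A ∧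
    ∀ (K : Type) [Field K] [NumberField K] (B : ℝ), 16 * √(rootDisc K) ≤ B →
      Real.exp (Module.finrank ℚ K * ((2 - ε) * Real.log B - (2 + ε) * rd K - A)) ≤
        ((Inv K B).ncard : ℝ) := by
  classical
  set ε1 : ℝ := min (ε / 4) 1 with hε1
  have h1 : 0 < ε1 := lt_min (by positivity) one_pos
  have h2 : ε1 ≤ 1 := min_le_right _ _
  have h3 : 4 * ε1 ≤ ε := by
    have := min_le_left (ε / 4) 1
    rw [← hε1] at this
    linarith
  obtain ⟨A, hA, h⟩ := low_count h1 h2
  have hl2 : 0 ≤ Real.log 2 := Real.log_nonneg (by norm_num)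
  refine ⟨A + Real.log 2, by positivity, ?_⟩
  intro K _ _ B hBK
  have hn := n_pos (K := K)
  have hn1 := finrank_one_le K
  have hrd := rd_nonneg K
  have hl16 : 0 ≤ Real.log 16 := Real.log_nonneg (by norm_num)
  have hB : 0 < B := by
    rw [sqrt_rootDisc] at hBK
    have : 0 < 16 * Real.exp (rd K / 2) := by positivity
    linarith
  have hl : Real.log 16 + rd K / 2 ≤ Real.log B := by
    rw [sqrt_rootDisc] at hBK
    have h1 := Real.log_le_log (by positivity) hBK
    rwa [Real.log_mul (by norm_num) (Real.exp_pos _).ne', Real.log_exp] at h1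
  have hl8 : Real.log 8 ≤ Real.log 16 := Real.log_le_log (by norm_num) (by norm_num)
  have hB1 : 1 ≤ B := by
    have : 0 ≤ Real.log B := by linarith
    by_contra hcon
    push Not at hcon
    have := Real.log_neg hB hcon
    linarith
  obtain ⟨E, hE, hcard⟩ := h K (Real.log B) (by linarith)
  have hsub : ((E.erase 1728 : Finset K) : Set K) ⊆ Inv K B := by
    intro j hj
    rw [Finset.mem_coe, Finset.mem_erase] at hj
    obtain ⟨h4, h5⟩ := hE j hj.2
    exact ⟨h4.1, hj.1, by rw [ht_log]; exact h5⟩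
  have hc := le_ncard (fin_Inv B) hsub le_rfl
  have hc1 : (E.card : ℝ) ≤ ((E.erase 1728).card : ℝ) + 1 := by
    have := Finset.pred_card_le_card_erase (s := E) (a := (1728 : K))
    exact_mod_cast (by omega : E.card ≤ (E.erase 1728).card + 1)
  have hc2 := one_le_ncard (K := K) hB1
  have h5 : Real.exp (Module.finrank ℚ K * ((2 - 4 * ε1) * Real.log B - (2 + ε1) * rd K - A)) ≤
      2 * ((Inv K B).ncard : ℝ) := by linarith
  have h6 : Real.exp (Module.finrank ℚ K * ((2 - ε) * Real.log B - (2 + ε) * rd K -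
      (A + Real.log 2))) * 2 ≤
      Real.exp (Module.finrank ℚ K * ((2 - 4 * ε1) * Real.log B - (2 + ε1) * rd K - A)) := by
    have e2 : (2 : ℝ) = Real.exp (Real.log 2) := (Real.exp_log (by norm_num)).symm
    nth_rw 4 [e2]
    rw [← Real.exp_add]
    apply Real.exp_le_exp.2
    have h7 : (2 - ε) * Real.log B ≤ (2 - 4 * ε1) * Real.log B :=
      mul_le_mul_of_nonneg_right (by linarith) (by linarith)
    have h8 : (2 + ε1) * rd K ≤ (2 + ε) * rd K := mul_le_mul_of_nonneg_right (by linarith) hrd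
    have h9 : Module.finrank ℚ K * ((2 - ε) * Real.log B - (2 + ε) * rd K) ≤
        Module.finrank ℚ K * ((2 - 4 * ε1) * Real.log B - (2 + ε1) * rd K) :=
      mul_le_mul_of_nonneg_left (by linarith) hn.le
    nlinarith
  linarith

/-- the number of exceptional invariants -/
theorem part_one (η ε : ℝ) (hη0 : 0 < η) (hη : η < 1 / 2) (hε : 0 < ε) : ∃ C : ℝ, 0 < C ∧
    ∀ (K : Type) [Field K] [NumberField K] (B : ℝ), 1 ≤ B →
      (Inv K B).Finite ∧ ((Exc K ((1 - 2 * η) / 100) B).ncard : ℝ) ≤
        (C * B ^ (2 - η / 2 + ε)) ^ Module.finrank ℚ K := by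
  obtain ⟨A, hA, h⟩ := exc_log hη0 hη hε
  refine ⟨Real.exp A, Real.exp_pos _, ?_⟩
  intro K _ _ B hB
  have hB0 : 0 < B := by linarith
  refine ⟨fin_Inv B, (h K B hB).trans (le_of_eq ?_)⟩
  rw [Real.rpow_def_of_pos hB0, ← Real.exp_add, ← Real.exp_nat_mul]
  congr 2
  ring

/-- their proportion, logarithmic form -/
theorem prop_log {η ε : ℝ} (hη0 : 0 < η) (hη : η < 1 / 2) (hε : 0 < ε) : ∃ A : ℝ, 0 ≤ A ∧
    ∀ (K : Type) [Field K] [NumberField K] (B : ℝ), 1 ≤ B →
      ((Exc K ((1 - 2 * η) / 100) B).ncard : ℝ) ≤ Real.exp (Module.finrank ℚ K *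
        (A + (-(η / 2) + ε) * Real.log B + (2 + ε) * rd K)) * ((Inv K B).ncard : ℝ) := by
  obtain ⟨A1, hA1, h1⟩ := exc_log hη0 hη (half_pos hε)
  obtain ⟨A2, hA2, h2⟩ := inv_log (half_pos hε)
  have hl16 : 0 ≤ Real.log 16 := Real.log_nonneg (by norm_num)
  refine ⟨A1 + A2 + Real.log 16, by positivity, ?_⟩
  intro K _ _ B hB
  have hB0 : 0 < B := by linarith
  have hlB : 0 ≤ Real.log B := Real.log_nonneg hB
  have hn := n_pos (K := K)
  have hrd := rd_nonneg K
  rcases le_or_gt (16 * √(rootDisc K)) B with hBK | hBK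
  · refine (h1 K B hB).trans ?_
    refine le_trans ?_ (mul_le_mul_of_nonneg_left (h2 K B hBK) (Real.exp_pos _).le)
    rw [← Real.exp_add]
    apply Real.exp_le_exp.2
    rw [← mul_add]
    apply mul_le_mul_of_nonneg_left _ hn.le
    nlinarith
  · have h7 : Real.log B < Real.log 16 + rd K / 2 := by
      rw [sqrt_rootDisc] at hBK
      have h1 := Real.log_lt_log hB0 hBK
      rwa [Real.log_mul (by norm_num) (Real.exp_pos _).ne', Real.log_exp] at h1
    refine le_trans (exc_le_inv _ B) ?_
    refine le_mul_of_one_le_left (Nat.cast_nonneg _) (Real.one_le_exp ?_)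
    apply mul_nonneg hn.le
    have h8 : -(1 / 4 * Real.log B) ≤ (-(η / 2) + ε) * Real.log B := by nlinarith
    nlinarith

theorem part_two (η ε : ℝ) (hη0 : 0 < η) (hη : η < 1 / 2) (hε : 0 < ε) : ∃ C : ℝ, 0 < C ∧
    ∀ (K : Type) [Field K] [NumberField K] (B : ℝ), 1 ≤ B →
      ((Exc K ((1 - 2 * η) / 100) B).ncard : ℝ) ≤
        (C * B ^ (-(η / 2) + ε) * rootDisc K ^ (2 + ε)) ^ Module.finrank ℚ K *
          ((Inv K B).ncard : ℝ) := by
  obtain ⟨A, hA, h⟩ := prop_log hη0 hη hε
  refine ⟨Real.exp A, Real.exp_pos _, ?_⟩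
  intro K _ _ B hB
  have hB0 : 0 < B := by linarith
  have hδ : 0 < rootDisc K := by rw [rootDisc_eq]; exact Real.exp_pos _
  rw [pow_form (Real.exp_pos _) hB0 hδ, Real.log_exp, rootDisc_eq, Real.log_exp]
  exact h K B hB

/-- a simple form -/
theorem part_three : ∃ B0 : ℝ, 0 < B0 ∧
    ∀ (K : Type) [Field K] [NumberField K] (B : ℝ), B0 * rootDisc K ^ 23 ≤ B →
      ((Exc K (1 / 500) B).ncard : ℝ) ≤
        (B ^ (-(1 / 10) : ℝ)) ^ Module.finrank ℚ K * ((Inv K B).ncard : ℝ) := by
  obtain ⟨A, hA, h⟩ := prop_log (η := 2 / 5) (ε := 1 / 100) (by norm_num) (by norm_num)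
    (by norm_num)
  refine ⟨Real.exp (12 * A), Real.exp_pos _, ?_⟩
  intro K _ _ B hB
  have hn := n_pos (K := K)
  have hrd := rd_nonneg K
  have e23 : rootDisc K ^ 23 = Real.exp (23 * rd K) := by
    rw [rootDisc_eq, ← Real.exp_nat_mul]
    norm_num
  rw [e23, ← Real.exp_add] at hB
  have hB0 : 0 < B := lt_of_lt_of_le (Real.exp_pos _) hB
  have hlB : 12 * A + 23 * rd K ≤ Real.log B := by
    rwa [Real.le_log_iff_exp_le hB0]
  have hB1 : 1 ≤ B := le_trans (Real.one_le_exp (by positivity)) hB
  have h1 := h K B hB1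
  have ec : (1 - 2 * (2 / 5 : ℝ)) / 100 = 1 / 500 := by norm_num
  rw [ec] at h1
  refine h1.trans (mul_le_mul_of_nonneg_right ?_ (Nat.cast_nonneg _))
  rw [Real.rpow_def_of_pos hB0, ← Real.exp_nat_mul]
  apply Real.exp_le_exp.2
  apply mul_le_mul_of_nonneg_left _ hn.le
  nlinarith

/-- the number of all invariants -/
theorem part_four (ε : ℝ) (hε : 0 < ε) : ∃ C : ℝ, 0 < C ∧
    ∀ (K : Type) [Field K] [NumberField K] (B : ℝ), 16 * √(rootDisc K) ≤ B →
      (C⁻¹ * B ^ (2 - ε) * rootDisc K ^ (-(2 + ε))) ^ Module.finrank ℚ K ≤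
        ((Inv K B).ncard : ℝ) := by
  obtain ⟨A, hA, h⟩ := inv_log hε
  refine ⟨Real.exp A, Real.exp_pos _, ?_⟩
  intro K _ _ B hBK
  have hB : 0 < B := by
    have h1 := hBK
    rw [sqrt_rootDisc] at h1
    have : 0 < 16 * Real.exp (rd K / 2) := by positivity
    linarith
  have hδ : 0 < rootDisc K := by rw [rootDisc_eq]; exact Real.exp_pos _
  rw [pow_form (by positivity) hB hδ, Real.log_inv, Real.log_exp, rootDisc_eq, Real.log_exp]
  refine le_trans (le_of_eq ?_) (h K B hBK)
  congr 1
  ring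

open Classical in
/-- no torsion -/
theorem part_five {K : Type} [Field K] [NumberField K] {c : ℝ} (hc : 0 < c) {j : K}
    (hj : LangSilverman c j) (a b : K) (hD : 4 * a ^ 3 + 27 * b ^ 2 ≠ 0) (hab : jInv a b = j)
    (P : SPt a b) (hP : IsOfFinAddOrder P) : P = 0 := by
  by_contra hne
  have hn := n_pos (K := K)
  set P' : Fin 1 → SPt a b := fun _ => P with hP'
  have h1 := hj a b hD hab ∅ (by simp) 1 1 (by
    have : (Matrix.map (1 : Matrix (Fin 1) (Fin 1) ℤ) (Int.cast : ℤ → ℝ)) = 1 := by
      ext i j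
      fin_cases i
      fin_cases j
      simp
    rw [this]
    exact Matrix.PosDef.one) P' (by
      intro h0
      exact hne (congrFun h0 0))
  have h2 : chatM (1 : Matrix (Fin 1) (Fin 1) ℤ) P' = 0 := by
    unfold chatM
    simp only [Finset.univ_unique, Fin.default_eq_zero, Finset.sum_singleton, hP']
    have h3 : chat P = 0 := tors_zero (a := a) (b := b) hD hP
    have h4 : chat (P + P) = 0 := tors_zero (a := a) (b := b) hD (hP.add hP)
    rw [h3, h4]
    simp
  rw [h2, zero_div, Finset.sum_empty, zero_div, add_zero] at h1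
  have h5 : 0 ≤ Height.logHeight₁ j := by rw [ht_log]; exact ht_nonneg j
  have h6 : 0 < c * (1 + Height.logHeight₁ j / Module.finrank ℚ K) := by positivity
  linarith

/-- every invariant occurs -/
theorem part_six {K : Type} [Field K] [NumberField K] (j : K) (h0 : j ≠ 0) (h1 : j ≠ 1728) :
    ∃ a b : K, 4 * a ^ 3 + 27 * b ^ 2 ≠ 0 ∧ jInv a b = j := by
  have h2 : j - 1728 ≠ 0 := sub_ne_zero.2 h1
  have e : 4 * (-3 * j * (j - 1728)) ^ 3 + 27 * (-2 * j * (j - 1728) ^ 2) ^ 2 =
      -186624 * (j ^ 2 * (j - 1728) ^ 3) := by ring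
  have hD : 4 * (-3 * j * (j - 1728)) ^ 3 + 27 * (-2 * j * (j - 1728) ^ 2) ^ 2 ≠ 0 := by
    rw [e]
    exact mul_ne_zero (by norm_num) (mul_ne_zero (pow_ne_zero _ h0) (pow_ne_zero _ h2))
  refine ⟨-3 * j * (j - 1728), -2 * j * (j - 1728) ^ 2, hD, ?_⟩
  unfold jInv
  rw [div_eq_iff hD, e]
  ring

open Classical in
/-- **Main theorem.** All constants are absolute: they do not depend on `K` or on its degree `n`.
(1) For `0 < η < 1/2` and `ε > 0` there is `C` such that, over every number field `K` and for every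
`B ≥ 1`, the lower bound of Lang and Silverman with the constant `(1 - 2 η) / 100`, for all twists,
all powers and all polarizations, fails for at most `(C * B ^ (2 - η / 2 + ε)) ^ n` of the
invariants `j ∈ K` of height at most `B`.
(2) This is at most the proportion `(C * B ^ (-η / 2 + ε) * δ_K ^ (2 + ε)) ^ n` of all of them.
(3) The constant `1 / 500` is good for all but the proportion `B ^ (-n / 10)` of them, over every
number field and for all `B ≥ B0 * δ_K ^ 23`.
(4) For `B ≥ 16 * √δ_K`, their number is at least `(B ^ (2 - ε) / (C * δ_K ^ (2 + ε))) ^ n`.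
(5) Where the bound holds, there are no torsion points.
(6) Every `j ≠ 0, 1728` is the invariant of a curve.
(7) `chat` is the limit of `sht (2 ^ k P) / 4 ^ k`. -/
theorem result :
    (∀ η ε : ℝ, 0 < η → η < 1 / 2 → 0 < ε → ∃ C : ℝ, 0 < C ∧
      ∀ (K : Type) [Field K] [NumberField K] (B : ℝ), 1 ≤ B →
        (Inv K B).Finite ∧ ((Exc K ((1 - 2 * η) / 100) B).ncard : ℝ) ≤
          (C * B ^ (2 - η / 2 + ε)) ^ Module.finrank ℚ K) ∧
    (∀ η ε : ℝ, 0 < η → η < 1 / 2 → 0 < ε → ∃ C : ℝ, 0 < C ∧
      ∀ (K : Type) [Field K] [NumberField K] (B : ℝ), 1 ≤ B →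
        ((Exc K ((1 - 2 * η) / 100) B).ncard : ℝ) ≤
          (C * B ^ (-(η / 2) + ε) * rootDisc K ^ (2 + ε)) ^ Module.finrank ℚ K *
            ((Inv K B).ncard : ℝ)) ∧
    (∃ B0 : ℝ, 0 < B0 ∧
      ∀ (K : Type) [Field K] [NumberField K] (B : ℝ), B0 * rootDisc K ^ 23 ≤ B →
        ((Exc K (1 / 500) B).ncard : ℝ) ≤
          (B ^ (-(1 / 10) : ℝ)) ^ Module.finrank ℚ K * ((Inv K B).ncard : ℝ)) ∧
    (∀ ε : ℝ, 0 < ε → ∃ C : ℝ, 0 < C ∧
      ∀ (K : Type) [Field K] [NumberField K] (B : ℝ), 16 * √(rootDisc K) ≤ B →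
        (C⁻¹ * B ^ (2 - ε) * rootDisc K ^ (-(2 + ε))) ^ Module.finrank ℚ K ≤
          ((Inv K B).ncard : ℝ)) ∧
    (∀ (K : Type) [Field K] [NumberField K] (c : ℝ) (j : K), 0 < c → LangSilverman c j →
      ∀ a b : K, 4 * a ^ 3 + 27 * b ^ 2 ≠ 0 → jInv a b = j →
        ∀ P : SPt a b, IsOfFinAddOrder P → P = 0) ∧
    (∀ (K : Type) [Field K] [NumberField K] (j : K), j ≠ 0 → j ≠ 1728 →
      ∃ a b : K, 4 * a ^ 3 + 27 * b ^ 2 ≠ 0 ∧ jInv a b = j) ∧
    (∀ (K : Type) [Field K] [NumberField K] (a b : K), 4 * a ^ 3 + 27 * b ^ 2 ≠ 0 →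
      ∀ P : SPt a b, Filter.Tendsto (fun k : ℕ => sht ((2 ^ k : ℕ) • P) / 4 ^ k) Filter.atTop
        (nhds (chat P))) :=
  ⟨part_one, part_two, part_three, part_four,
    fun _ _ _ _ _ hc hj a b hD hab P hP => part_five hc hj a b hD hab P hP,
    fun _ _ _ j h0 h1 => part_six j h0 h1,
    fun _ _ _ _ _ hD P => (chat_spec hD).1 P⟩

end Pool.Agent.Results.MP_9a3c31_nt.AllFieldsAllTwists
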