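import Mathlib
import Pool.Agent.Y725.LS.Final

/-!
# Lang and Silverman's lower bound for forms of powers, under a truncated Szpiro-type bound

`E : y² = x³ + a x + b` is an elliptic curve over a number field `K` of degree at most `D`, with
`a`, `b` integral of height at most `κ (1 + h(j))`.  A finite Galois extension `L` of `K` and a
representation `ρ` of its group by integral matrices of size `g` define an abelian variety `A` over
`K`, the form of `E ^ g` with `A(K) = {P ∈ E(L) ^ g | ρ(σ) σ(P) = P for all σ}` (`FixedPt ρ P`).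
A symmetric positive definite integral matrix `M` with `ρ(σ)ᵀ M ρ(σ) = M` (`Polar ρ M`) is a
polarization of `A` over `K`; the corresponding absolute canonical height is
`chatM M P / [L : ℚ]`.

`BadAt a b w` says that the place `w` of `L` is a place of bad reduction of `E` over `L`, or that
`2 (4 a³ + 27 b²)` is a unit at `w` and some `σ ≠ 1` is in the inertia group of `w`.
`SzpiroLe σ δ s M₀ a b L` says that, leaving out at most `s` places of `K`, the places dividing
`M₀`, and a part of size at most `δ h(j)`, the sum of `log |j|_v` over the places `v` of `K` with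
`|j|_v > 1` is at most `σ` times the sum of `log N w` over a finite set of places `w` with
`BadAt a b w`.

`Pts L a b` is the group of points over `L`, `sht P` the height of the `x`-coordinate,
`chat P` the canonical height, and `RamPrimes K T` says that for each prime `v` in `T` there is
`σ ≠ 1` in the inertia group.  `logNorms T` is the sum of `log N v`, `v ∈ T`, and `absH` is the
absolute logarithmic height.  `DenseOrbit ρ P` says that no non-zero homomorphism from `E ^ g` to
`E` given by integers kills, modulo torsion, all `φ(P)`, `φ` an integral matrix commuting with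
`ρ`, that is an endomorphism of `A` over `K`.  `Generates P` says that `σ(P) ≠ P` for `σ ≠ 1`.
-/

set_option autoImplicit false

open Pool.Agent.TH910.LS Pool.Agent.Y725.LS NumberField IsDedekindDomain

theorem Pool.Agent.Results.MP_9a3c31_nt.FormsSzpiroRatio.result
    (D g s : ℕ) (hg : 0 < g) (κ σ : ℝ) (hκ : 0 ≤ κ) :
    ∃ c δ : ℝ, 0 < c ∧ 0 < δ ∧ ∀ M₀ : ℕ, M₀ ≠ 0 → ∃ A c₀ : ℝ, 0 < c₀ ∧
    ∀ (K : Type) [Field K] [NumberField K], Module.finrank ℚ K ≤ D →
    ∀ a b : 𝓞 K, 4 * (a : K) ^ 3 + 27 * (b : K) ^ 2 ≠ 0 →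
      absH (a : K) + absH (b : K) ≤ κ * (1 + absH (jinv (a : K) b)) →
    ∀ (L : Type) [Field L] [NumberField L] [Algebra K L] [IsGalois K L] [DecidableEq L],
      SzpiroLe σ δ s M₀ a b L → ChatLim L a b ∧
      ∀ (ρ : (L ≃ₐ[K] L) →* Matrix (Fin g) (Fin g) ℤ) (M : Matrix (Fin g) (Fin g) ℤ)
        (P : Fin g → Pts L a b) (T : Finset (HeightOneSpectrum (𝓞 L))),
        Polar ρ M → FixedPt ρ P → RamPrimes K T →
        (Generates P ∧ ¬ IsOfFinAddOrder P) ∨ (Faithful ρ ∧ DenseOrbit ρ P) →
          (if A < absH (jinv (a : K) b) then c else c₀) *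
              (1 + absH (jinv (a : K) b) + logNorms T / Module.finrank ℚ L) ≤
            chatM M P / Module.finrank ℚ L := by
  obtain ⟨c, δ, hc, hδ, h⟩ := dense_main D g s hg κ σ hκ
  refine ⟨c, δ, hc, hδ, fun M₀ hM₀ => ?_⟩
  obtain ⟨A, c₀, hc₀, h⟩ := h M₀ hM₀
  exact ⟨A, c₀, hc₀, fun K _ _ hK a b hab hκ L _ _ _ _ _ hSz => ⟨chatLim a b hab L,
    fun ρ M P T hM hP hT hor => h K hK a b hab hκ L hSz ρ M P T hM hP hT hor⟩⟩
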