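import Pool.Agent.Results.MP_9a3c31_nt.AllFieldsAllTwists
import Pool.Agent.Y854.GM.Win

/-!
# The Lang-Silverman lower bound for all curves with invariant of height in short windows

Let `K` be a number field, `0 < η < 1 / 2`, let `v ≥ 1` be a sequence with exponent of convergence at most `τ` (for
`v_k = k ^ b` this is `1 / b`, for `v_k = b ^ k` it is `0`) and `θ < 1`. For all `α > 0` outside a set of Hausdorff
dimension at most `(1 - η / 4 + τ) / (1 - θ)` and all but finitely many `k`, the lower bound of Lang and Silverman with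
the constant `(1 - 2 η) / 100` holds for ALL powers, with all polarizations, of ALL elliptic curves over `K` (in particular
all twists) with invariant `j ≠ 0, 1728` such that `|H_K(j) ^ 2 - α v_k| ≤ v_k ^ θ`.
-/

set_option autoImplicit false

namespace Pool.Agent.Results.MP_9a3c31_nt.InvariantWindows

open NumberField IsDedekindDomain
open AllFieldsAllTwists (LangSilverman)

/-- the exponent of convergence of the sequence `v` is at most `τ` -/
def ExpLe (v : ℕ → ℝ) (τ : ℝ) : Prop := ∀ t : ℝ, τ < t → Summable (fun n : ℕ => (v n) ^ (-t))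

/-- the invariants for which the bound with constant `c` fails -/
def Exc (K : Type) [Field K] [NumberField K] (c : ℝ) : Set K := {j | j ≠ 0 ∧ j ≠ 1728 ∧ ¬ LangSilverman c j}

lemma count (K : Type) [Field K] [NumberField K] (η : ℝ) (hη : 0 < η) (hη2 : η < 1 / 2) (ε : ℝ) (hε : 0 < ε) :
    ∃ C : ℝ, ∀ X : ℝ, 1 ≤ X → {j | j ∈ Exc K ((1 - 2 * η) / 100) ∧ (Height.mulHeight₁ j) ^ 2 ≤ X}.Finite ∧
      ({j | j ∈ Exc K ((1 - 2 * η) / 100) ∧ (Height.mulHeight₁ j) ^ 2 ≤ X}.ncard : ℝ) ≤ C * X ^ (1 - η / 4 + ε) := by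
  have hd : (0 : ℝ) < (Module.finrank ℚ K : ℝ) := by exact_mod_cast Module.finrank_pos
  obtain ⟨C, hC, h⟩ := AllFieldsAllTwists.result.1 η (2 * ε) hη hη2 (by positivity)
  refine ⟨C ^ Module.finrank ℚ K, fun X hX => ?_⟩
  have hX0 : 0 < X := by linarith
  set B : ℝ := X ^ (1 / (2 * (Module.finrank ℚ K : ℝ))) with hB
  have hB1 : 1 ≤ B := Real.one_le_rpow hX (by positivity)
  obtain ⟨hfin, hcard⟩ := h K B hB1
  have hsub : {j | j ∈ Exc K ((1 - 2 * η) / 100) ∧ (Height.mulHeight₁ j) ^ 2 ≤ X} ⊆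
      AllFieldsAllTwists.Exc K ((1 - 2 * η) / 100) B := by
    rintro j ⟨⟨h1, h2, h3⟩, h4⟩
    refine ⟨⟨h1, h2, ?_⟩, h3⟩
    have hpos : 0 < Height.mulHeight₁ j := Height.mulHeight₁_pos j
    have h5 : Real.log ((Height.mulHeight₁ j) ^ 2) ≤ Real.log X := Real.log_le_log (by positivity) h4
    rw [Real.log_pow] at h5
    push_cast at h5
    rw [hB, Real.log_rpow hX0]
    have h6 : Height.logHeight₁ j = Real.log (Height.mulHeight₁ j) := rfl
    rw [h6]
    have h7 : (Module.finrank ℚ K : ℝ) * (1 / (2 * (Module.finrank ℚ K : ℝ)) * Real.log X) = Real.log X / 2 := by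
      field_simp
    rw [h7]
    linarith
  have hfin2 : (AllFieldsAllTwists.Exc K ((1 - 2 * η) / 100) B).Finite := hfin.subset fun j hj => hj.1
  refine ⟨hfin2.subset hsub, ?_⟩
  have h4 : ({j | j ∈ Exc K ((1 - 2 * η) / 100) ∧ (Height.mulHeight₁ j) ^ 2 ≤ X}.ncard : ℝ) ≤
      ((AllFieldsAllTwists.Exc K ((1 - 2 * η) / 100) B).ncard : ℝ) := by
    exact_mod_cast Set.ncard_le_ncard hsub hfin2
  refine (h4.trans hcard).trans (le_of_eq ?_)
  rw [mul_pow]
  congr 1
  rw [hB, ← Real.rpow_natCast, ← Real.rpow_mul hX0.le, ← Real.rpow_mul hX0.le]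
  congr 1
  field_simp
  ring

/-- **Theorem.** Let `K` be a number field, `0 < η < 1 / 2`, `v ≥ 1` a sequence of exponent of convergence at most
`τ ≥ 0` and `θ < 1`. There is a set `E` of Hausdorff dimension at most `(1 - η / 4 + τ) / (1 - θ)` such that for each
`α > 0` outside `E` and all but finitely many `k`, the lower bound of Lang and Silverman with the constant
`(1 - 2 η) / 100` holds for ALL `j ∈ K`, `j ≠ 0, 1728`, with `|H_K(j) ^ 2 - α v_k| ≤ v_k ^ θ`: for ALL elliptic curves over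
`K` of invariant `j`, all their powers and all polarizations. The sequences `v_k = (k + 1) ^ b` and `v_k = b ^ k` have
exponent of convergence at most `1 / b` and `0`. -/
theorem result :
    (∀ (K : Type) [Field K] [NumberField K] (η : ℝ), 0 < η → η < 1 / 2 →
      ∀ (v : ℕ → ℝ) (τ θ : ℝ), (∀ k, 1 ≤ v k) → 0 ≤ τ → ExpLe v τ → θ < 1 →
      ∃ E : Set ℝ, dimH E ≤ ENNReal.ofReal ((1 - η / 4 + τ) / (1 - θ)) ∧
        ∀ α : ℝ, 0 < α → α ∉ E → ∃ k₀ : ℕ, ∀ k : ℕ, k₀ ≤ k → ∀ j : K, j ≠ 0 → j ≠ 1728 →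
          |(Height.mulHeight₁ j) ^ 2 - α * v k| ≤ (v k) ^ θ → LangSilverman ((1 - 2 * η) / 100) j) ∧
    (∀ b : ℝ, 0 < b → ExpLe (fun n : ℕ => ((n : ℝ) + 1) ^ b) (1 / b)) ∧
    (∀ b : ℝ, 1 < b → ExpLe (fun n : ℕ => b ^ n) 0) := by
  refine ⟨fun K _ _ η hη hη2 v τ θ hv hτ hE hθ1 => ?_, fun κ hκ => Pool.Agent.Y854.GM.expLe_pow κ hκ,
    fun b hb => Pool.Agent.Y854.GM.expLe_geom b hb⟩
  obtain ⟨E, h2, h3⟩ := Pool.Agent.Y854.GM.windows (Exc K ((1 - 2 * η) / 100)) (fun j => (Height.mulHeight₁ j) ^ 2)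
    hv hτ hE (s := 1 - η / 4) (by linarith) hθ1 (fun ε hε => count K η hη hη2 ε hε)
  refine ⟨E, h2, fun α hα hαE => ?_⟩
  obtain ⟨k₀, hk⟩ := h3 α hα hαE
  refine ⟨k₀, fun k hk1 j h0 h1 hw => ?_⟩
  by_contra hcon
  exact absurd (hk k hk1 j ⟨h0, h1, hcon⟩) (not_lt.2 hw)

end Pool.Agent.Results.MP_9a3c31_nt.InvariantWindows
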